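import Pool.Agent.H79.BQ.B0
import Pool.Agent.H7.GT.Rows
import Pool.Agent.H7.GT.RowCV2
import Pool.Agent.H11.BQ.DER
import Pool.Agent.H20.BQ.CH
import Pool.Agent.H20.BQ.EQV
import Pool.Agent.H33.BQ.FUB
import Pool.Agent.H33.BQ.PART
import Pool.Agent.H36.BQ.VB
import Pool.Agent.H54.BQ.INT
import Pool.Agent.H56.BQ.SUM
import Pool.Agent.H68.BQ.TRI
import Pool.Agent.H77.BQ.LAY
import Pool.Agent.H77.BQ.ZON
import Pool.Agent.H79.BQ.MASS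
import Pool.Agent.H88.GT.Inv

/-!
# The quasimodes
-/

set_option autoImplicit false

namespace Pool.Agent.H44.GT

open Pool.Agent.H44.DU Pool.Agent.H79.GT

theorem pf_B_0 : B_0 := by
  have hR : T_RAD := Pool.Agent.H7.GT.RAD
  have hP : T_PART := Pool.Agent.H33.BQ.pf_PART
  have hC : T_CH := Pool.Agent.H20.BQ.pf_CH hP
  have hE : T_EQV := Pool.Agent.H20.BQ.pf_EQV hR hP
  have hI : T_INV := Pool.Agent.H88.GT.pf_T_INV hR Pool.Agent.H7.GT.SM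
  have hZ : T_ZON := Pool.Agent.H77.BQ.pf_ZON hR Pool.Agent.H7.GT.SAME hE hP
  have hInt : T_INT := Pool.Agent.H54.BQ.pf_INT hC hP (Pool.Agent.H33.BQ.pf_FUB hC)
  have hLay : T_LAY := Pool.Agent.H77.BQ.pf_LAY Pool.Agent.H79.BQ.pf_MASS hC hP hE
  have hVB : T_VB := Pool.Agent.H36.BQ.pf_VB Pool.Agent.H7.GT.WK hE hC hP
  have hT : T_TRI := Pool.Agent.H68.BQ.pf_TRI hR hZ hC hP hE
  have hB : T_B0 := Pool.Agent.H79.BQ.pf_B0 hR hI Pool.Agent.H7.GT.AV1 Pool.Agent.H7.GT.CV1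
    Pool.Agent.H7.GT.CV2 Pool.Agent.H11.BQ.pf_DER hE hLay hC hP hInt hZ hT
    Pool.Agent.H56.BQ.pf_SUM hVB
  intro n S t τ f _ h1 h2 ε hε
  obtain ⟨T₀, -, h3⟩ := hB n S t f τ h1 h2 ε hε
  exact ⟨T₀, fun T hT => h3 T hT⟩

end Pool.Agent.H44.GT
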