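import Pool.Agent.H44.DV.Targets

/-!
# Dilation surfaces of genus at most two: definitions
-/

set_option autoImplicit false

namespace Pool.Agent.H44.DU

open MeasureTheory

namespace Surf

variable {n : ℕ} (S : Surf n)

/-! ## Vertices, genus, translation surfaces -/

/-- The vertices are cone points: there is a positive number `r c` at every corner `c` (the corner
`(i, k)` is the vertex `v i k` of the triangle `i`) which is multiplied by the scale in every
gluing. Equivalently, the scales of the gluings around every vertex multiply to `1`. -/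
def ConePts : Prop := ∃ r : Side n → ℝ, ∀ c, 0 < r c ∧ r (nx (S.gl c)) = S.a c * r c

/-- The surface is a translation surface: one can scale the triangles in such a way that all
gluings become translations. -/
def Transl : Prop := ∃ h : Fin n → ℝ, (∀ i, 0 < h i) ∧ ∀ s, h (S.gl s).1 = S.a s * h s.1

/-- The corner `c'` is the corner next to `c` at the same vertex: the gluing of the side `c`
maps the corner `c` to the corner `c'`. -/
def Vtx (c c' : Side n) : Prop := c' = nx (S.gl c)

/-- The number of vertices of the surface. -/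
noncomputable def nv : ℕ := Nat.card (Quot S.Vtx)

/-! ## Cocycles -/

/-- A cocycle: an odd function of the sides, with sum zero over every triangle. -/
def Coc (c : Side n → ℝ) : Prop :=
  (∀ s, c (S.gl s) = -c s) ∧ ∀ s, c s + c (nx s) + c (nx (nx s)) = 0

/-- The intersection form (twice the wedge product). -/
def Om (c c' : Side n → ℝ) : ℝ :=
  ∑ i : Fin n, (c (i, 1) * c' (i, 0) - c (i, 0) * c' (i, 1))

/-- The cocycle has zero scale. -/
def Orth (c : Side n → ℝ) : Prop := ∑ s : Side n, Real.log (S.a s) * c s = 0

/-! ## Slopes with a minimal foliation -/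

/-- Everything which holds in almost every direction in which the foliation is not Morse-Smale. -/
structure KM (t c : ℝ) : Prop where
  ok : S.OK t c
  per : S.TPer t = ∅
  tmin : S.TMin t
  low : S.TLow t
  upp : S.TUpp t
  nf : ∀ (W : ℕ → Side n) (c d : ℝ), c < d → ¬ S.Fr t W c d

/-- There is a hyperbolic closed leaf. -/
def Hyp (t : ℝ) : Prop := ∃ m y, S.TCyc t m y ∧ ∏ k ∈ Finset.range m, S.a (y k).1 ≠ 1

/-! ## Invariant measures -/

/-- The smallest coordinate of a point of the triangle. -/
noncomputable def xl (t : ℝ) (i : Fin n) : ℝ :=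
  min (xi t (S.v i 0)) (min (xi t (S.v i 1)) (xi t (S.v i 2)))

/-- The largest coordinate of a point of the triangle. -/
noncomputable def xr (t : ℝ) (i : Fin n) : ℝ :=
  max (xi t (S.v i 0)) (max (xi t (S.v i 1)) (xi t (S.v i 2)))

/-- An invariant transverse measure without atoms of the foliation of direction `t + i`:
`p i y - p i x` is the measure of the leaves of the triangle `i` with coordinates between `x`
and `y`. -/
structure IM (t : ℝ) (p : Fin n → ℝ → ℝ) : Prop where
  mono : ∀ i, _root_.Monotone (p i)
  cont : ∀ i, Continuous (p i)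
  glue : ∀ (r : Side n) (x y : ℝ), xi t (S.Q r) ≤ x → x ≤ y → y ≤ xi t (S.P r) →
    p (S.gl r).1 (S.mv t r y) - p (S.gl r).1 (S.mv t r x) = p r.1 y - p r.1 x

/-- The class of an invariant measure: the measure of the sides, with signs. -/
noncomputable def cc (t : ℝ) (p : Fin n → ℝ → ℝ) (s : Side n) : ℝ :=
  p s.1 (xi t (S.Q s)) - p s.1 (xi t (S.P s))

/-- The measure is strictly positive on intervals of leaves. -/
def SInc (t : ℝ) (p : Fin n → ℝ → ℝ) : Prop :=
  ∀ i x y, S.xl t i ≤ x → x < y → y ≤ S.xr t i → p i x < p i y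

/-- An invariant transverse measure with a square integrable density `f`. -/
structure LD (t : ℝ) (f : Fin n → ℝ → ℝ) : Prop where
  meas : ∀ i, Measurable (f i)
  nonneg : ∀ i x, 0 ≤ f i x
  sq : ∀ i, IntegrableOn (fun x => f i x ^ 2) (Set.Ioo (S.xl t i) (S.xr t i))
  glue : ∀ r, ∀ᵐ x : ℝ, S.InJ t r x → f (S.gl r).1 (S.mv t r x) = f r.1 x / S.a r
  pos : ∃ i, 0 < ∫ x in Set.Ioo (S.xl t i) (S.xr t i), f i x

/-- The distribution function of a density. -/
noncomputable def pf (t : ℝ) (f : Fin n → ℝ → ℝ) (i : Fin n) (x : ℝ) : ℝ :=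
  ∫ y in Set.Ioo (S.xl t i) (S.xr t i) ∩ Set.Iio x, f i y

/-! ## Sections -/

/-- The closed triangle. -/
def tri (i : Fin n) : Set ℂ := convexHull ℝ (Set.range (S.v i))

/-- A section of the flat bundle with the transition factors `ζ`: Lipschitz on the closed
triangles, compatible with the gluings. -/
structure Sec (ζ : Side n → ℂ) (G : Fin n → ℂ → ℂ) : Prop where
  lip : ∃ K : NNReal, ∀ i, LipschitzOnWith K (G i) (S.tri i)
  glue : ∀ s : Side n, ∀ z ∈ segment ℝ (S.P s) (S.Q s),
    G (S.gl s).1 (S.a s * z + S.b s) = ζ s * G s.1 z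

/-- The energy in the direction `e`. -/
noncomputable def en (e : ℂ) (G : Fin n → ℂ → ℂ) : ℝ :=
  ∑ i : Fin n, ∫ z in S.tri i, ‖fderiv ℝ (G i) z e‖ ^ 2

/-- The anisotropic energy in the direction `t + i`. -/
noncomputable def qe (t T : ℝ) (G : Fin n → ℂ → ℂ) : ℝ :=
  T ^ 2 * S.en ((t : ℂ) + Complex.I) G + (T ^ 2)⁻¹ * S.en 1 G

/-- The transition factors of the power of the scale with the exponent `i * τ`. -/
noncomputable def zt (τ : ℝ) (s : Side n) : ℂ :=
  Complex.exp (Complex.I * (τ * Real.log (S.a s)))

end Surf

/-- The unitary invariant section of a density. -/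
noncomputable def uu {n : ℕ} (τ : ℝ) (f : Fin n → ℝ → ℝ) (i : Fin n) (x : ℝ) : ℂ :=
  open Classical in
  if 0 < f i x then Complex.exp (-(Complex.I * (τ * Real.log (f i x)))) else 0

end Pool.Agent.H44.DU
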