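import Pool.Agent.H85.G2.Cov
import Pool.Agent.H85.G2.Adapt

/-!
# The Euler characteristic
-/

set_option autoImplicit false

namespace Pool.Agent.H44.DU

/-- The Euler characteristic of the triangulated surface: vertices minus edges (`3 n / 2`) plus
triangles (`n`). -/
noncomputable def Surf.euler {n : ℕ} (S : Surf n) : ℚ := Nat.card S.Vertex - 3 * n / 2 + n

lemma Surf.euler_iff {n : ℕ} (S : Surf n) : -2 ≤ S.euler ↔ n ≤ 2 * S.nv + 4 := by
  rw [Pool.Agent.H85.G2.nv_eq, Surf.euler]
  constructor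
  · intro h
    have h1 : (n : ℚ) ≤ 2 * (Nat.card S.Vertex : ℚ) + 4 := by linarith
    exact_mod_cast h1
  · intro h
    have h1 : (n : ℚ) ≤ 2 * (Nat.card S.Vertex : ℚ) + 4 := by exact_mod_cast h
    linarith

end Pool.Agent.H44.DU
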