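import Pool.Agent.H44.GT.Targets2
import Pool.Agent.H44.DV.Final

/-!
# Dilation surfaces of genus at most two: assembly
-/

set_option autoImplicit false

namespace Pool.Agent.H44.DU

open MeasureTheory

/-- A surface which is not a translation surface has a triangle. -/
lemma Surf.pos_of_not_transl {n : ℕ} {S : Surf n} (hT : ¬ S.Transl) : 0 < n := by
  rcases Nat.eq_zero_or_pos n with h | h
  · subst h
    exact absurd ⟨fun _ => 1, fun i => i.elim0, fun s => s.1.elim0⟩ hT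
  · exact h

/-- Genus at most two: the slopes. -/
theorem g2_slopes (hU : U_0) (hE : E_0) (hK : M_KM) (hG : T_GE) (hC : T_CO) {n : ℕ} (S : Surf n)
    (hc : S.Connected) (hT : ¬ S.Transl) (hp : S.ConePts) (hg : n ≤ 2 * S.nv + 4) :
    ∀ᵐ t : ℝ, S.MorseSmale ((t : ℂ) + Complex.I) := by
  have a1 : ∀ᵐ t : ℝ, S.Gd t := by
    rw [ae_iff]
    exact (hC n S).measure_zero volume
  have a2 : ∀ᵐ t : ℝ, ¬ ((∃ c, S.KM t c) ∧ S.NoLD t) := by
    rw [ae_iff]
    simpa only [not_not] using hU n S hc hT hp hg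
  filter_upwards [a1, a2, (hK n S hc).1, hE n S hc hT (Surf.pos_of_not_transl hT)] with t b1 b2 b3 b4
  rcases b3 with b3 | b3
  · exact hG n S t b1 b3
  · exact absurd ⟨b3, b4 b1⟩ b2

/-- Every genus: a minimal foliation has no square integrable density, for almost every slope. -/
theorem e_slopes (hE : E_0) (hK : M_KM) (hG : T_GE) (hM : D_GM) (hP : M_PF) (hS : M_POS)
    (hUB : E_UB) (hF : F_UB) (hC : T_CO) {n : ℕ} (S : Surf n) (hc : S.Connected)
    (hT : ¬ S.Transl) :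
    ∀ᵐ t : ℝ, S.MorseSmale ((t : ℂ) + Complex.I) ∨
      (S.Minimal ((t : ℂ) + Complex.I) ∧ S.Subexp ((t : ℂ) + Complex.I) ∧
        S.Unb ((t : ℂ) + Complex.I) ∧ ¬ ∃ f, S.LD t f) := by
  have a1 : ∀ᵐ t : ℝ, S.Gd t := by
    rw [ae_iff]
    exact (hC n S).measure_zero volume
  have hn := Surf.pos_of_not_transl hT
  filter_upwards [a1, (hK n S hc).1, hE n S hc hT hn] with t b1 b3 b4
  rcases b3 with b3 | ⟨c, b3⟩
  · exact Or.inl (hG n S t b1 b3)
  · have hL : ¬ ∃ f, S.LD t f := by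
      rintro ⟨f, hf⟩
      have h1 := hP n S t f hf
      refine b4 b1 f hf (hS n S t _ b1 b3.tmin h1.im ?_)
      obtain ⟨i, hi⟩ := hf.pos
      have e1 : S.pf t f i (S.xl t i) = 0 := h1.left i _ le_rfl
      have e2 : S.pf t f i (S.xr t i) = ∫ x in Set.Ioo (S.xl t i) (S.xr t i), f i x := by
        have : Set.Ioo (S.xl t i) (S.xr t i) ∩ Set.Iio (S.xr t i) =
            Set.Ioo (S.xl t i) (S.xr t i) := by
          ext x
          simp only [Set.mem_inter_iff, Set.mem_Ioo, Set.mem_Iio]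
          tauto
        rw [Surf.pf, this]
      have e3 : S.xl t i ≤ S.xr t i := by
        unfold Surf.xl Surf.xr
        exact (min_le_left _ _).trans (le_max_left _ _)
      exact ⟨i, S.xl t i, S.xr t i, le_rfl, e3, le_rfl, by rw [e1, e2]; exact hi⟩
    refine Or.inr ⟨(hM n S t b1).1 b3.per b3.tmin, (hM n S t b1).2 b3.low b3.upp,
      hF n S t b1 fun C hC' => ?_, hL⟩
    by_contra hcon
    push_neg at hcon
    exact hL (hUB n S t hn b1 ⟨C, hC', fun w x hw => ⟨(hcon w x hw).2, (hcon w x hw).1⟩⟩)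

/-- From slopes to angles. -/
theorem g2_transfer (hAE : T_AE) (φ : ℂ → Prop) (h : ∀ᵐ t : ℝ, φ ((t : ℂ) + Complex.I))
    (h' : ∀ (d : ℂ) (l : ℝ), l ≠ 0 → φ d → φ ((l : ℂ) * d)) :
    ∀ᵐ θ : ℝ, φ (Complex.exp (θ * Complex.I)) := by
  rw [ae_iff] at h
  filter_upwards [hAE _ h] with θ ⟨t, ht, l, hl, he⟩
  rw [he]
  exact h' _ l hl (not_not.1 ht)

/-- The Morse-Smale property only depends on the direction up to a real factor. -/
theorem ms_scale (hSC : T_SC) {n : ℕ} (S : Surf n) (d : ℂ) (l : ℝ) (hl : l ≠ 0)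
    (h : S.MorseSmale d) : S.MorseSmale ((l : ℂ) * d) := by
  rcases lt_or_gt_of_ne hl with h1 | h1
  · have b1 := (hSC n S _ h).1 (-l) (by linarith)
    have b2 := (hSC n S _ b1).2
    have : -(((-l : ℝ) : ℂ) * d) = (l : ℂ) * d := by
      push_cast; ring
    rwa [this] at b2
  · exact (hSC n S _ h).1 l h1

/-- All together, for the angles. -/
theorem g2_angles (hU : U_0) (hE : E_0) (hK : M_KM) (hG : T_GE) (hM : D_GM) (hP : M_PF)
    (hS : M_POS) (hUB : E_UB) (hF : F_UB) (hC : T_CO) (hSC : T_SC) (hAE : T_AE) (hSM : D_SM)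
    (hSU : F_SU) {n : ℕ} (S : Surf n) (hc : S.Connected) (hT : ¬ S.Transl) :
    (S.ConePts → n ≤ 2 * S.nv + 4 → ∀ᵐ θ : ℝ, S.MorseSmale (Complex.exp (θ * Complex.I))) ∧
    (∀ᵐ θ : ℝ, S.MorseSmale (Complex.exp (θ * Complex.I)) ∨
      (S.Minimal (Complex.exp (θ * Complex.I)) ∧ S.Subexp (Complex.exp (θ * Complex.I)) ∧
        S.Unb (Complex.exp (θ * Complex.I)))) ∧
    (∀ᵐ t : ℝ, S.MorseSmale ((t : ℂ) + Complex.I) ∨
      (S.Minimal ((t : ℂ) + Complex.I) ∧ ¬ ∃ f, S.LD t f)) := by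
  have e1 := e_slopes hE hK hG hM hP hS hUB hF hC S hc hT
  refine ⟨fun hp hg => ?_, ?_, ?_⟩
  · exact g2_transfer hAE S.MorseSmale (g2_slopes hU hE hK hG hC S hc hT hp hg)
      fun d l hl h => ms_scale hSC S d l hl h
  · refine g2_transfer hAE
      (fun d => S.MorseSmale d ∨ (S.Minimal d ∧ S.Subexp d ∧ S.Unb d)) ?_ ?_
    · filter_upwards [e1] with t ht
      rcases ht with ht | ⟨h1, h2, h3, -⟩
      · exact Or.inl ht
      · exact Or.inr ⟨h1, h2, h3⟩
    · rintro d l hl (h | ⟨h1, h2, h3⟩)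
      · exact Or.inl (ms_scale hSC S d l hl h)
      · exact Or.inr ⟨(hSM n S d l hl).1 h1, (hSM n S d l hl).2 h2, hSU n S d l hl h3⟩
  · filter_upwards [e1] with t ht
    rcases ht with ht | ⟨h1, -, -, h4⟩
    · exact Or.inl ht
    · exact Or.inr ⟨h1, h4⟩

end Pool.Agent.H44.DU
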