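import Pool.Agent.H44.DV.All
import Pool.Agent.H44.GT.Final
import Pool.Agent.H44.GT.Euler
import Pool.Agent.H4.GD.M_KM
import Pool.Agent.H10.GD.V_BOX
import Pool.Agent.H10.GD.W_TRI
import Pool.Agent.H11.GD.W_MEA
import Pool.Agent.H16.GD.M_COC
import Pool.Agent.H24.GD.V_LOC
import Pool.Agent.H25.GD.V0
import Pool.Agent.H25.GD.W12
import Pool.Agent.H29.GD.F_SU
import Pool.Agent.H33.GD.V_BXI
import Pool.Agent.H34.GD.W_KEY
import Pool.Agent.H34.GD.W_SID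
import Pool.Agent.H35.GD.U_0
import Pool.Agent.H35.GD.V_PAIR
import Pool.Agent.H36.GD.E_0
import Pool.Agent.H36.GD.E_BOX
import Pool.Agent.H36.GD.E_CST
import Pool.Agent.H37.GD.F_UB
import Pool.Agent.H39.GD.M_MSW
import Pool.Agent.H40.GD.A_0
import Pool.Agent.H40.GD.E_CYC
import Pool.Agent.H40.GD.V_FAN
import Pool.Agent.H42.GD.U_MON
import Pool.Agent.H42.GD.U_UE
import Pool.Agent.H46.GD.U_CNT
import Pool.Agent.H54.GD.U_EQ
import Pool.Agent.H56.GD.U_DEN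
import Pool.Agent.H60.GD.M_CNT
import Pool.Agent.H60.GD.M_COV
import Pool.Agent.H60.GD.M_LC
import Pool.Agent.H61.GD.M_CST
import Pool.Agent.H61.GD.V_ABS
import Pool.Agent.H68.GD.E_UB
import Pool.Agent.H68.GD.M_PF
import Pool.Agent.H68.GD.M_POS
import Pool.Agent.H72.GD.M_UNI
import Pool.Agent.H74.GD.M_LIM
import Pool.Agent.H74.GD.M_PER
import Pool.Agent.H75.GD.V_RSZ
import Pool.Agent.H44.GT.B0
import Pool.Agent.H80.GD.M_EXI
import Pool.Agent.H85.GD.G_1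
import Pool.Agent.H85.GD.G_2
import Pool.Agent.H85.GD.U_PLU
import Pool.Agent.H94.GD.M_HYO
import Pool.Agent.H98.GD.V_DER

/-!
# Dilation surfaces of genus at most two: all modules together
-/

set_option autoImplicit false

namespace Pool.Agent.H44.GT.All

open Pool.Agent.H44.DU Pool.Agent.H44.DU.All Pool.Agent.H44.DV.All MeasureTheory

/-! ## Linear algebra -/

theorem g_1 : G_1 := Pool.Agent.H85.GD.pf_G_1

theorem g_2 : G_2 := Pool.Agent.H85.GD.pf_G_2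

/-! ## Invariant measures -/

theorem m_HYO : M_HYO := Pool.Agent.H94.GD.pf_M_HYO

theorem m_KM : M_KM := Pool.Agent.H4.GD.pf_M_KM r_CO r_GA d_NA d_TD d_NF d_Z1 d_Z2 d_Z3 d_RR

theorem m_LC : M_LC := Pool.Agent.H60.GD.pf_M_LC r_LH r_DV

theorem m_PER : M_PER := Pool.Agent.H74.GD.pf_M_PER r_KD r_LH

theorem m_MSW : M_MSW := Pool.Agent.H39.GD.pf_M_MSW m_PER m_LC r_FD r_LH

theorem m_COV : M_COV := Pool.Agent.H60.GD.pf_M_COV m_LC r_EX r_FD r_LH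

theorem m_UNI : M_UNI := Pool.Agent.H72.GD.pf_M_UNI m_MSW m_COV

theorem m_LIM : M_LIM := Pool.Agent.H74.GD.pf_M_LIM m_UNI

theorem m_CNT : M_CNT := Pool.Agent.H60.GD.pf_M_CNT

theorem m_COC : M_COC := Pool.Agent.H16.GD.pf_M_COC

theorem m_CST : M_CST := Pool.Agent.H61.GD.pf_M_CST r_INF

theorem m_POS : M_POS := Pool.Agent.H68.GD.pf_M_POS

theorem m_PF : M_PF := Pool.Agent.H68.GD.pf_M_PF

theorem m_EXI : M_EXI := Pool.Agent.H80.GD.pf_M_EXI m_CNT m_LIM m_COC r_INF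

/-! ## Intersections -/

theorem w_KEY : W_KEY :=
  Pool.Agent.H34.GD.pf_W_KEY Pool.Agent.H11.GD.pf_W_MEA Pool.Agent.H34.GD.pf_W_SID
    Pool.Agent.H10.GD.pf_W_TRI

theorem w_1 : W_1 := Pool.Agent.H25.GD.pf_W_1 w_KEY

theorem w_2 : W_2 := Pool.Agent.H25.GD.pf_W_2 w_KEY

theorem v_0 : V_0 :=
  Pool.Agent.H25.GD.pf_V_0
    (Pool.Agent.H10.GD.pf_V_BOX (Pool.Agent.H35.GD.pf_V_PAIR w_KEY)
      Pool.Agent.H61.GD.pf_V_ABS Pool.Agent.H33.GD.pf_V_BXI)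
    Pool.Agent.H24.GD.pf_V_LOC Pool.Agent.H75.GD.pf_V_RSZ Pool.Agent.H98.GD.pf_V_DER
    Pool.Agent.H40.GD.pf_V_FAN

/-! ## There are no square integrable densities -/

theorem a_0 : A_0 := Pool.Agent.H40.GD.pf_A_0

theorem b_0 : B_0 := Pool.Agent.H44.GT.pf_B_0

theorem e_0 : E_0 :=
  Pool.Agent.H36.GD.pf_E_0 a_0 b_0 Pool.Agent.H40.GD.pf_E_CYC Pool.Agent.H36.GD.pf_E_BOX
    Pool.Agent.H36.GD.pf_E_CST

theorem e_UB : E_UB := Pool.Agent.H68.GD.pf_E_UB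

/-! ## Unique ergodicity and the monotone function -/

theorem u_DEN : U_DEN := Pool.Agent.H56.GD.pf_U_DEN

theorem u_EQ : U_EQ := Pool.Agent.H54.GD.pf_U_EQ m_CST

theorem u_UE : U_UE := Pool.Agent.H42.GD.pf_U_UE g_1 g_2 w_2 u_DEN u_EQ m_COC

theorem u_PLU : U_PLU := Pool.Agent.H85.GD.pf_U_PLU g_1 g_2

theorem u_CNT : U_CNT := Pool.Agent.H46.GD.pf_U_CNT m_LIM u_UE w_1 m_POS m_COC

theorem u_MON : U_MON := Pool.Agent.H42.GD.pf_U_MON

theorem u_0 : U_0 :=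
  Pool.Agent.H35.GD.pf_U_0 e_0 m_HYO m_KM m_EXI m_POS m_COC w_1 u_PLU u_CNT u_MON v_0

/-! ## The theorems -/

theorem f_UB : F_UB := Pool.Agent.H37.GD.pf_F_UB r_ST

theorem f_SU : F_SU := Pool.Agent.H29.GD.pf_F_SU

/-- Genus at most two. -/
theorem genus_two {n : ℕ} (S₀ : Surf n) (hc : S₀.Connected) (hcon : S₀.Conical)
    (hT : ¬ S₀.IsTranslation) (hg : -2 ≤ S₀.euler) :
    (∀ᵐ θ : ℝ, S₀.MorseSmale (Complex.exp (θ * Complex.I))) ∧
    ∀ (m : ℕ) (S : Surf m) (π : Fin m → Fin n), 0 < m → S.Covers S₀ π →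
      ∀ᵐ θ : ℝ, S.MorseSmale (Complex.exp (θ * Complex.I)) := by
  have h1 := (g2_angles u_0 e_0 m_KM r_GE d_GM m_PF m_POS e_UB f_UB r_CO r_SC r_AE d_SM f_SU S₀ hc
    (fun h => hT (Pool.Agent.H85.G2.transl_iff.1 h))).1
    (Pool.Agent.H85.G2.conical_iff.2 hcon) (S₀.euler_iff.1 hg)
  exact ⟨h1, fun m S π hm hπ => Pool.Agent.H85.G2.covers r_PT r_ST r_SC r_AE r_CO hπ hm hc h1⟩

/-- Every genus: almost every foliation is Morse-Smale, or minimal without square integrable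
density and with subexponential and unbounded scales. -/
theorem every_genus {n : ℕ} (S : Surf n) (hc : S.Connected) (hT : ¬ S.IsTranslation) :
    (∀ᵐ θ : ℝ, S.MorseSmale (Complex.exp (θ * Complex.I)) ∨
      (S.Minimal (Complex.exp (θ * Complex.I)) ∧ S.Subexp (Complex.exp (θ * Complex.I)) ∧
        S.Unb (Complex.exp (θ * Complex.I)))) ∧
    (∀ᵐ t : ℝ, S.MorseSmale ((t : ℂ) + Complex.I) ∨
      (S.Minimal ((t : ℂ) + Complex.I) ∧ ¬ ∃ f, S.LD t f)) :=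
  (g2_angles u_0 e_0 m_KM r_GE d_GM m_PF m_POS e_UB f_UB r_CO r_SC r_AE d_SM f_SU S hc
    (fun h => hT (Pool.Agent.H85.G2.transl_iff.1 h))).2

/-- Every genus, all statements. -/
theorem dichotomy {n : ℕ} (S : Surf n) (hc : S.Connected) :
    (∀ᵐ θ : ℝ, S.MorseSmale (Complex.exp (θ * Complex.I)) ∨
      (S.Minimal (Complex.exp (θ * Complex.I)) ∧ S.Subexp (Complex.exp (θ * Complex.I)) ∧
        (¬ S.IsTranslation → S.Unb (Complex.exp (θ * Complex.I))))) ∧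
    (¬ S.IsTranslation → ∀ᵐ t : ℝ, S.MorseSmale ((t : ℂ) + Complex.I) ∨
      (S.Minimal ((t : ℂ) + Complex.I) ∧ ¬ ∃ f, S.LD t f)) ∧
    (∀ᵐ θ : ℝ, (S.Per (Complex.exp (θ * Complex.I))).Nonempty →
      S.MorseSmale (Complex.exp (θ * Complex.I))) ∧
    (∀ᵐ θ : ℝ, (∃ U : Set (Fin n), S.Traps (Complex.exp (θ * Complex.I)) U) →
      S.MorseSmale (Complex.exp (θ * Complex.I))) ∧
    (∀ (U : Set (Fin n)) (u : ℂ), U.Nonempty → Uᶜ.Nonempty → u ≠ 0 →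
      (∀ s : Side n, s.1 ∈ U → (S.gl s).1 ∉ U →
        ∃ r : ℝ, 0 < r ∧ S.Q s - S.P s = (r : ℂ) * u) →
      ∀ᵐ θ : ℝ, S.MorseSmale (Complex.exp (θ * Complex.I))) := by
  obtain ⟨h1, h2, h3, h4⟩ := Pool.Agent.H44.DV.All.thm S hc
  by_cases hT : S.IsTranslation
  · refine ⟨?_, fun h => absurd hT h, h2, h3, h4⟩
    filter_upwards [h1] with θ h
    rcases h with h | ⟨a1, a2⟩
    · exact Or.inl h
    · exact Or.inr ⟨a1, a2, fun h => absurd hT h⟩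
  · obtain ⟨e1, e2⟩ := every_genus S hc hT
    refine ⟨?_, fun _ => e2, h2, h3, h4⟩
    filter_upwards [e1] with θ h
    rcases h with h | ⟨a1, a2, a3⟩
    · exact Or.inl h
    · exact Or.inr ⟨a1, a2, fun _ => a3⟩

end Pool.Agent.H44.GT.All
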