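import Pool.Agent.H44.GT.Defs

/-!
# Dilation surfaces of genus at most two: the statements of the modules

The interfaces between the blocks, and the blocks on invariant measures.
-/

set_option autoImplicit false

namespace Pool.Agent.H44.DU

open MeasureTheory Filter Topology

namespace Surf

variable {n : ℕ} (S : Surf n)

/-- A size of the corners. -/
def Size (r : Side n → ℝ) : Prop := ∀ c, 0 < r c ∧ r (nx (S.gl c)) = S.a c * r c

/-- A function of the vertices. -/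
def VF (φ : Side n → ℝ) : Prop := ∀ c, φ (nx (S.gl c)) = φ c

/-- The cocycle of a size and a function of the vertices. -/
noncomputable def coh (r φ : Side n → ℝ) (κ : ℝ) (s : Side n) : ℝ :=
  κ * (Real.log (r (nx s)) - Real.log (r s)) + (φ (nx s) - φ s)

/-- A family of monotone functions which is almost an invariant measure: monotone, constant and
normalised outside the ranges of the triangles, with the error `κ` in the gluings and the masses of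
the triangles at most `M`. -/
structure AM (t κ M : ℝ) (p : Fin n → ℝ → ℝ) : Prop where
  mono : ∀ i, _root_.Monotone (p i)
  left : ∀ i x, x ≤ S.xl t i → p i x = 0
  right : ∀ i x, S.xr t i ≤ x → p i x = p i (S.xr t i)
  mass : ∀ i, p i (S.xr t i) ≤ M
  glue : ∀ (r : Side n) (x y : ℝ), xi t (S.Q r) ≤ x → x ≤ y → y ≤ xi t (S.P r) →
    |(p (S.gl r).1 (S.mv t r y) - p (S.gl r).1 (S.mv t r x)) - (p r.1 y - p r.1 x)| ≤ κ

/-- A normalised invariant measure: zero to the left of the triangles and constant to the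
right. -/
structure NM (t : ℝ) (p : Fin n → ℝ → ℝ) : Prop where
  im : S.IM t p
  left : ∀ i x, x ≤ S.xl t i → p i x = 0
  right : ∀ i x, S.xr t i ≤ x → p i x = p i (S.xr t i)

/-- There is no invariant measure with a square integrable density and full support. -/
def NoLD (t : ℝ) : Prop := ∀ f : Fin n → ℝ → ℝ, S.LD t f → ¬ S.SInc t (S.pf t f)

end Surf

/-! ## The interfaces -/

/-- Three cocycles of zero scale are dependent modulo the class of the scales. -/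
def G_1 : Prop :=
  ∀ (n : ℕ) (S : Surf n), S.Connected → ¬ S.Transl → n ≤ 2 * S.nv + 4 →
    ∀ r : Side n → ℝ, S.Size r → ∀ c₁ c₂ c₃ : Side n → ℝ, S.Coc c₁ → S.Coc c₂ → S.Coc c₃ →
    S.Orth c₁ → S.Orth c₂ → S.Orth c₃ →
    ∃ (a₁ a₂ a₃ κ : ℝ) (φ : Side n → ℝ), S.VF φ ∧ (a₁ ≠ 0 ∨ a₂ ≠ 0 ∨ a₃ ≠ 0) ∧
      ∀ s, a₁ * c₁ s + a₂ * c₂ s + a₃ * c₃ s = Surf.coh r φ κ s

/-- The class of the scales is orthogonal to the cocycles of zero scale. -/
def G_2 : Prop :=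
  ∀ (n : ℕ) (S : Surf n) (r φ : Side n → ℝ) (κ : ℝ), S.Size r → S.VF φ →
    ∀ c : Side n → ℝ, S.Coc c → S.Orth c → Surf.Om (Surf.coh r φ κ) c = 0 ∧ Surf.Om c (Surf.coh r φ κ) = 0

/-- The energy estimate in almost every direction. -/
def A_0 : Prop :=
  ∀ (n : ℕ) (S : Surf n) (ζ : Side n → ℂ), (∀ s, ‖ζ s‖ = 1) → (∀ s, ζ (S.gl s) * ζ s = 1) →
    ∀ (b : Fin n → ℂ → ℂ), (∀ i, Measurable (b i)) → (∃ M, ∀ i z, ‖b i z‖ ≤ M) → ∀ e : ℂ,
    ∀ᵐ t : ℝ, ∃ C : ℝ, ∀ N : ℕ, ∃ T : ℝ, N ≤ T ∧ ∀ G, S.Sec ζ G →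
      ‖∑ i, ∫ z in S.tri i, b i z * fderiv ℝ (G i) z e‖ ^ 2 ≤ C * S.qe t T G

/-- The quasimodes of an invariant measure with a square integrable density. -/
def B_0 : Prop :=
  ∀ (n : ℕ) (S : Surf n) (t τ : ℝ) (f : Fin n → ℝ → ℝ), S.Gd t → S.LD t f →
    S.SInc t (S.pf t f) → ∀ ε > (0 : ℝ), ∃ T₀ : ℝ, ∀ T ≥ T₀, ∃ G, S.Sec (S.zt τ) G ∧
      (∀ i, ∀ z ∈ S.tri i, ‖G i z‖ ≤ 1) ∧ S.qe t T G ≤ ε ∧
      ∑ i, ∫ z in S.tri i, ‖G i z - uu τ f i (xi t z)‖ ≤ ε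

/-- Invariant measures of different directions intersect. -/
def W_1 : Prop :=
  ∀ (n : ℕ) (S : Surf n) (t t' : ℝ) (p q : Fin n → ℝ → ℝ), 0 < n → t < t' → S.IM t p →
    S.IM t' q → S.SInc t p → S.SInc t' q → 0 < Surf.Om (S.cc t p) (S.cc t' q)

/-- Invariant measures of the same direction do not intersect. -/
def W_2 : Prop :=
  ∀ (n : ℕ) (S : Surf n) (t : ℝ) (p q : Fin n → ℝ → ℝ), S.IM t p → S.IM t q →
    Surf.Om (S.cc t p) (S.cc t q) = 0

/-- A compact set of directions with invariant measures whose intersections are small: there is a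
square integrable density. -/
def V_0 : Prop :=
  ∀ (n : ℕ) (S : Surf n) (K : Set ℝ) (P : ℝ → Fin n → ℝ → ℝ) (C : ℝ), 0 < n → IsCompact K →
    0 < volume K → (∀ t ∈ K, S.Gd t ∧ S.NM t (P t) ∧ S.SInc t (P t)) →
    (∀ i, ContinuousOn (fun q : ℝ × ℝ => P q.1 i q.2) (K ×ˢ Set.univ)) →
    (∀ t ∈ K, ∀ t' ∈ K, t < t' → Surf.Om (S.cc t (P t)) (S.cc t' (P t')) ≤ C * (t' - t)) →
    ∃ t ∈ K, ∃ f, S.LD t f ∧ ∀ i x y, S.xl t i ≤ x → x ≤ y → y ≤ S.xr t i →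
      S.pf t f i y - S.pf t f i x = P t i y - P t i x

/-! ## Invariant measures -/

/-- The set of the slopes with a hyperbolic closed leaf is open. -/
def M_HYO : Prop := ∀ (n : ℕ) (S : Surf n), IsOpen {t : ℝ | S.Hyp t}

/-- Almost every foliation is Morse-Smale or of the second kind. -/
def M_KM : Prop :=
  ∀ (n : ℕ) (S : Surf n), S.Connected →
    (∀ᵐ t : ℝ, S.TMS t ∨ ∃ c, S.KM t c) ∧ (∀ t, S.TMS t → S.Hyp t) ∧
    ∀ t c, S.KM t c → ¬ S.Hyp t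

/-- In good directions the realised words do not change in a neighbourhood. -/
def M_LC : Prop :=
  ∀ (n : ℕ) (S : Surf n) (t : ℝ), S.Gd t → ∀ w : List (Side n), w ≠ [] → ∃ δ > (0 : ℝ),
    ∀ t', |t' - t| < δ → ((∃ x, S.Run t' w x) ↔ ∃ x, S.Run t w x)

/-- Powers of short words are not realised. -/
def M_PER : Prop :=
  ∀ (n : ℕ) (S : Surf n) (t c : ℝ), S.KM t c → ∀ m : ℕ, ∃ J : ℕ, ∀ u : List (Side n), u ≠ [] →
    u.length ≤ m → ∀ x, ¬ S.Run t ((List.replicate J u).flatten) x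

/-- Long words have a small mass, uniformly near a direction of the second kind. -/
def M_MSW : Prop :=
  ∀ (n : ℕ) (S : Surf n) (t c M ε : ℝ), S.KM t c → 0 < M → 0 < ε → ∃ L : ℕ, 0 < L ∧
    ∃ δ > (0 : ℝ), ∃ κ > (0 : ℝ), ∀ t', |t' - t| < δ → ∀ p, S.AM t' κ M p →
      ∀ (r : Side n) (w : List (Side n)), (r :: w).length = L → (∃ x, S.Run t' (r :: w) x) →
      p r.1 (S.hi t' (r :: w)) - p r.1 (S.lo t' (r :: w)) ≤ ε

/-- The words of a given length cut the ranges of the triangles into intervals which are not short,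
uniformly near a good direction: a short interval is covered by two of them. -/
def M_COV : Prop :=
  ∀ (n : ℕ) (S : Surf n) (t : ℝ) (L : ℕ), S.Gd t → 0 < L → ∃ η > (0 : ℝ), ∃ δ > (0 : ℝ),
    ∀ t', |t' - t| < δ → ∀ (i : Fin n) (x y : ℝ), S.xl t' i ≤ x → x ≤ y → y ≤ S.xr t' i →
      y - x < η → ∃ (r r' : Side n) (w w' : List (Side n)) (z : ℝ), r.1 = i ∧ r'.1 = i ∧
      (r :: w).length = L ∧ (r' :: w').length = L ∧ (∃ v, S.Run t' (r :: w) v) ∧
      (∃ v, S.Run t' (r' :: w') v) ∧ x ≤ z ∧ z ≤ y ∧ S.lo t' (r :: w) ≤ x ∧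
      z ≤ S.hi t' (r :: w) ∧ S.lo t' (r' :: w') ≤ z ∧ y ≤ S.hi t' (r' :: w')

/-- Short intervals have a small mass, uniformly near a direction of the second kind. -/
def M_UNI : Prop :=
  ∀ (n : ℕ) (S : Surf n) (t c M ε : ℝ), S.KM t c → 0 < M → 0 < ε → ∃ η > (0 : ℝ),
    ∃ δ > (0 : ℝ), ∃ κ > (0 : ℝ), ∀ t', |t' - t| < δ → ∀ p, S.AM t' κ M p →
      ∀ i x y, x ≤ y → y - x < η → p i y - p i x ≤ ε

/-- Limits of measures. -/
def M_LIM : Prop :=
  ∀ (n : ℕ) (S : Surf n) (t c M : ℝ), S.KM t c → 0 < M → ∀ (U : Ultrafilter ℕ) (s κ : ℕ → ℝ)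
    (p : ℕ → Fin n → ℝ → ℝ), Tendsto s U (𝓝 t) → Tendsto κ U (𝓝 0) →
    (∀ j, S.AM (s j) (κ j) M (p j)) →
    ∃ q, S.NM t q ∧ (∀ i, q i (S.xr t i) ≤ M) ∧
      ∀ (i : Fin n) (x : ℝ) (y : ℕ → ℝ), Tendsto y U (𝓝 x) →
        Tendsto (fun j => p j i (y j)) U (𝓝 (q i x))

/-- There is an infinite leaf. -/
def M_INF : Prop :=
  ∀ (n : ℕ) (S : Surf n) (t : ℝ), 0 < n → S.Gd t →
    ∃ y : ℕ → Side n × ℝ, ∀ k, S.Tr t (y k) (y (k + 1))

/-- The counting functions of a leaf. -/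
def M_CNT : Prop :=
  ∀ (n : ℕ) (S : Surf n) (t : ℝ) (y : ℕ → Side n × ℝ), (∀ k, S.Tr t (y k) (y (k + 1))) →
    ∀ N : ℕ, 0 < N → ∀ p : Fin n → ℝ → ℝ,
    (∀ i x, p i x = (((Finset.range N).filter fun k => (y k).1.1 = i ∧ (y k).2 ≤ x).card : ℝ) /
      N) →
    S.AM t (2 / N) 1 p ∧
    (∀ r : Side n, xi t (S.Q r) < xi t (S.P r) → p r.1 (xi t (S.P r)) - p r.1 (xi t (S.Q r)) =
      (((Finset.range N).filter fun k => (y k).1 = r).card : ℝ) / N)

/-- There is an invariant measure of zero scale. -/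
def M_EXI : Prop :=
  ∀ (n : ℕ) (S : Surf n) (t c : ℝ), 0 < n → S.KM t c →
    ∃ p, S.NM t p ∧ S.Orth (S.cc t p) ∧ ∃ s, S.cc t p s ≠ 0

/-- The class of an invariant measure is a cocycle. -/
def M_COC : Prop :=
  ∀ (n : ℕ) (S : Surf n) (t : ℝ) (p : Fin n → ℝ → ℝ), S.IM t p → S.Coc (S.cc t p)

/-- An invariant measure of a minimal foliation has full support. -/
def M_POS : Prop :=
  ∀ (n : ℕ) (S : Surf n) (t : ℝ) (p : Fin n → ℝ → ℝ), S.Gd t → S.TMin t → S.IM t p →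
    (∃ i x y, S.xl t i ≤ x ∧ x ≤ y ∧ y ≤ S.xr t i ∧ p i x < p i y) → S.SInc t p

/-- A continuous invariant function on a minimal foliation is constant. -/
def M_CST : Prop :=
  ∀ (n : ℕ) (S : Surf n) (t : ℝ) (h : Fin n → ℝ → ℝ), S.Connected → S.Gd t → S.TMin t →
    (∀ i, Continuous (h i)) →
    (∀ (r : Side n) (x : ℝ), S.InJ t r x → h (S.gl r).1 (S.mv t r x) = h r.1 x) →
    ∃ k : ℝ, ∀ i x, S.xl t i ≤ x → x ≤ S.xr t i → h i x = k

/-- The distribution function of a density is an invariant measure. -/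
def M_PF : Prop :=
  ∀ (n : ℕ) (S : Surf n) (t : ℝ) (f : Fin n → ℝ → ℝ), S.LD t f → S.NM t (S.pf t f)

/-! ## Unique ergodicity -/

/-- Two invariant measures whose classes differ by the class of the scales: there is a density. -/
def U_DEN : Prop :=
  ∀ (n : ℕ) (S : Surf n) (t : ℝ) (p p' : Fin n → ℝ → ℝ) (r φ : Side n → ℝ) (κ : ℝ), 0 < n →
    S.Gd t → S.Size r → S.VF φ → S.IM t p → S.IM t p' → κ ≠ 0 →
    (∀ s, S.cc t p' s - S.cc t p s = Surf.coh r φ κ s) → ∃ f, S.LD t f ∧ S.SInc t (S.pf t f)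

/-- Two invariant measures with the same class are equal. -/
def U_EQ : Prop :=
  ∀ (n : ℕ) (S : Surf n) (t : ℝ) (p p' : Fin n → ℝ → ℝ) (r φ : Side n → ℝ), S.Connected →
    S.Gd t → S.TMin t → S.VF φ → S.NM t p → S.NM t p' →
    (∀ s, S.cc t p' s - S.cc t p s = Surf.coh r φ 0 s) → p = p'

/-- Unique ergodicity. -/
def U_UE : Prop :=
  ∀ (n : ℕ) (S : Surf n), S.Connected → ¬ S.Transl → S.ConePts → n ≤ 2 * S.nv + 4 →
    ∀ (t c : ℝ) (p p' : Fin n → ℝ → ℝ) (cβ : Side n → ℝ), 0 < n → S.KM t c → S.NoLD t →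
    S.NM t p → S.NM t p' → S.Orth (S.cc t p) → S.Orth (S.cc t p') → S.Coc cβ → S.Orth cβ →
    Surf.Om (S.cc t p) cβ = 1 → Surf.Om (S.cc t p') cβ = 1 → p = p'

/-- The relation of Pluecker. -/
def U_PLU : Prop :=
  ∀ (n : ℕ) (S : Surf n), S.Connected → ¬ S.Transl → S.ConePts → n ≤ 2 * S.nv + 4 →
    ∀ c₁ c₂ c₃ c₄ : Side n → ℝ, S.Coc c₁ → S.Coc c₂ → S.Coc c₃ → S.Coc c₄ →
    S.Orth c₁ → S.Orth c₂ → S.Orth c₃ → S.Orth c₄ →
    Surf.Om c₁ c₂ * Surf.Om c₃ c₄ - Surf.Om c₁ c₃ * Surf.Om c₂ c₄ + Surf.Om c₁ c₄ * Surf.Om c₂ c₃ = 0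

/-- The normalised invariant measures depend continuously on the direction. -/
def U_CNT : Prop :=
  ∀ (n : ℕ) (S : Surf n), S.Connected → ¬ S.Transl → S.ConePts → n ≤ 2 * S.nv + 4 → 0 < n →
    ∀ (β cb : ℝ) (q : Fin n → ℝ → ℝ), S.KM β cb → S.NM β q → S.Orth (S.cc β q) →
    (∃ s, S.cc β q s ≠ 0) → ∀ (K : Set ℝ) (P : ℝ → Fin n → ℝ → ℝ),
    (∀ t ∈ K, t < β ∧ (∃ c, S.KM t c) ∧ S.NoLD t ∧ S.NM t (P t) ∧ S.Orth (S.cc t (P t)) ∧
      Surf.Om (S.cc t (P t)) (S.cc β q) = 1) →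
    ∀ i, ContinuousOn (fun z : ℝ × ℝ => P z.1 i z.2) (K ×ˢ Set.univ)

/-- A monotone function on a set of positive measure is Lipschitz on a compact subset of positive
measure. -/
def U_MON : Prop :=
  ∀ (K : Set ℝ) (x : ℝ → ℝ), NullMeasurableSet K volume → 0 < volume K → MonotoneOn x K →
    ∃ K' ⊆ K, IsCompact K' ∧ 0 < volume K' ∧ ∃ C : ℝ, ∀ t ∈ K', ∀ t' ∈ K', t ≤ t' →
      x t' - x t ≤ C * (t' - t)

/-- The slopes without closed leaves and without densities are a null set, in genus at most two. -/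
def U_0 : Prop :=
  ∀ (n : ℕ) (S : Surf n), S.Connected → ¬ S.Transl → S.ConePts → n ≤ 2 * S.nv + 4 →
    volume {t : ℝ | (∃ c, S.KM t c) ∧ S.NoLD t} = 0

/-! ## There are no square integrable densities -/

/-- A character of the scales which is not trivial. -/
def E_CYC : Prop :=
  ∀ (n : ℕ) (S : Surf n), S.Connected → ¬ S.Transl → ∃ τ : ℝ, ∀ k : Fin n → ℂ, (∀ i, k i ≠ 0) →
    ¬ ∀ s, k (S.gl s).1 = S.zt τ s * k s.1

/-- The closed square. -/
def sq (z : ℂ) (ρ : ℝ) : Set ℂ := {w | |w.re - z.re| ≤ ρ ∧ |w.im - z.im| ≤ ρ}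

/-- The difference of the integrals over two squares is a linear functional of the derivative. -/
def E_BOX : Prop :=
  ∀ (n : ℕ) (S : Surf n) (i : Fin n) (z z' : ℂ) (ρ : ℝ), 0 < ρ →
    (∀ l ∈ Set.Icc (0 : ℝ) 1, sq (z + l * (z' - z)) ρ ⊆ interior (S.tri i)) →
    ∃ b : ℂ → ℂ, Measurable b ∧ (∃ M, ∀ w, ‖b w‖ ≤ M) ∧ ∀ (K : NNReal) (G : ℂ → ℂ),
      LipschitzOnWith K G (S.tri i) →
      (∫ w in sq z' ρ, G w) - ∫ w in sq z ρ, G w =
        ∫ w in S.tri i, b w * fderiv ℝ G w (z' - z)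

/-- A function of the leaf whose integrals over squares only depend on the size is constant. -/
def E_CST : Prop :=
  ∀ (n : ℕ) (S : Surf n) (t : ℝ) (i : Fin n) (u : ℝ → ℂ), Measurable u → (∀ x, ‖u x‖ ≤ 1) →
    (∀ (a b c d e : ℚ), 0 < e →
      (∀ l ∈ Set.Icc (0 : ℝ) 1, sq (((a : ℂ) + b * Complex.I) +
        l * (((c : ℂ) + d * Complex.I) - ((a : ℂ) + b * Complex.I))) e ⊆ interior (S.tri i)) →
      ∫ w in sq ((c : ℂ) + d * Complex.I) e, u (xi t w) =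
        ∫ w in sq ((a : ℂ) + b * Complex.I) e, u (xi t w)) →
    ∃ k : ℂ, ∀ᵐ x : ℝ, S.xl t i < x → x < S.xr t i → u x = k

/-- In almost every direction there is no square integrable density. -/
def E_0 : Prop :=
  ∀ (n : ℕ) (S : Surf n), S.Connected → ¬ S.Transl → 0 < n → ∀ᵐ t : ℝ, S.Gd t → S.NoLD t

end Pool.Agent.H44.DU
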