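import Pool.Agent.H44.GT.Targets

/-!
# Dilation surfaces of genus at most two: more statements
-/

set_option autoImplicit false

namespace Pool.Agent.H44.DU

open MeasureTheory Filter Topology

namespace Surf

variable {n : ℕ} (S : Surf n)

/-- The scales along the leaves of direction `d` are unbounded: for every `C` there is a piece of a
leaf such that the product of the scales of its steps is larger than `C` or smaller than `1 / C`. -/
def Unb (d : ℂ) : Prop :=
  ∀ C > (0 : ℝ), ∃ (m : ℕ) (x : ℕ → Side n × ℂ) (c : ℕ → ℝ),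
    (∀ k < m, S.Step d (c k) (x k) (x (k + 1))) ∧
    (C < ∏ k ∈ Finset.range m, c k ∨ ∏ k ∈ Finset.range m, c k < C⁻¹)

end Surf

/-- Bounded scales give a density. -/
def E_UB : Prop :=
  ∀ (n : ℕ) (S : Surf n) (t : ℝ), 0 < n → S.Gd t →
    (∃ C > (0 : ℝ), ∀ w x, S.Run t w x → C⁻¹ ≤ S.A w ∧ S.A w ≤ C) → ∃ f, S.LD t f

/-- Unbounded scales in the leaf coordinates and on the surface. -/
def F_UB : Prop :=
  ∀ (n : ℕ) (S : Surf n) (t : ℝ), S.Gd t →
    (∀ C > (0 : ℝ), ∃ w x, S.Run t w x ∧ (C < S.A w ∨ S.A w < C⁻¹)) →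
    S.Unb ((t : ℂ) + Complex.I)

/-- The direction only matters up to a real factor. -/
def F_SU : Prop :=
  ∀ (n : ℕ) (S : Surf n) (d : ℂ) (l : ℝ), l ≠ 0 → S.Unb d → S.Unb ((l : ℂ) * d)

end Pool.Agent.H44.DU
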